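import Pool.Agent.H19.Kir.Orbit

set_option autoImplicit false

open Matrix

/-!
`EU` is path connected, and so every class of degree zero comes from a function on the orbits.
-/

namespace Pool.Agent.H19.Kir

open Pool.Agent.Results.MP_8779dd_gt.KirwanDegreeZero

noncomputable section

section

variable {ι : Type} [Fintype ι]

lemma line_joined (A B : EU ι) (h : ∀ t : ℝ, 0 ≤ t → t ≤ 1 → ∀ v : ι → ℂ,
    (∀ n, (1 - (t : ℂ)) * (A.1 n ⬝ᵥ v) + t * (B.1 n ⬝ᵥ v) = 0) → v = 0) : Joined A B := by
  refine ⟨⟨⟨fun t => ⟨fun n i => (1 - ((t : ℝ) : ℂ)) * A.1 n i + ((t : ℝ) : ℂ) * B.1 n i, ?_⟩, ?_⟩,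
    ?_, ?_⟩⟩
  · intro v hv
    apply h t t.2.1 t.2.2 v
    intro n
    refine Eq.trans ?_ (hv n)
    simp only [dotProduct, Finset.mul_sum, ← Finset.sum_add_distrib]
    refine Finset.sum_congr rfl fun i _ => ?_
    ring
  · refine Continuous.subtype_mk ?_ _
    refine continuous_pi fun n => continuous_pi fun i => ?_
    fun_prop
  · apply Subtype.ext
    funext n i
    simp
  · apply Subtype.ext
    funext n i
    simp

/-- the rows of `T` at the odd positions -/
def oddRows (T : EU ι) : EU ι :=
  ⟨fun n => if n % 2 = 1 then T.1 (n / 2) else 0, fun v hv => T.2 v fun n => by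
    have h := hv (2 * n + 1)
    have h1 : (2 * n + 1) % 2 = 1 := by omega
    have h2 : (2 * n + 1) / 2 = n := by omega
    simpa [h1, h2] using h⟩

/-- the rows of `T` at the even positions -/
def evenRows (T : EU ι) : EU ι :=
  ⟨fun n => if n % 2 = 0 then T.1 (n / 2) else 0, fun v hv => T.2 v fun n => by
    have h := hv (2 * n)
    have h1 : (2 * n) % 2 = 0 := by omega
    have h2 : (2 * n) / 2 = n := by omega
    simpa [h1, h2] using h⟩

lemma joined_odd (T : EU ι) : Joined T (oddRows T) := by
  apply line_joined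
  intro t _ _ v hv
  apply T.2
  by_cases ht : (1 - (t : ℂ)) = 0
  · intro n
    have h := hv (2 * n + 1)
    have h1 : (2 * n + 1) % 2 = 1 := by omega
    have h2 : (2 * n + 1) / 2 = n := by omega
    have ht1 : (t : ℂ) = 1 := by linear_combination -ht
    simpa [oddRows, h1, h2, ht1] using h
  · intro n
    induction n using Nat.strong_induction_on with
    | _ n ih =>
      have h := hv n
      rcases Nat.mod_two_eq_zero_or_one n with hn | hn
      · simpa [oddRows, hn, ht] using h
      · have h3 := ih (n / 2) (by omega)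
        simpa [oddRows, hn, h3, ht] using h

lemma joined_even (T : EU ι) : Joined T (evenRows T) := by
  apply line_joined
  intro t _ _ v hv
  apply T.2
  by_cases ht : (1 - (t : ℂ)) = 0
  · intro n
    have h := hv (2 * n)
    have h1 : (2 * n) % 2 = 0 := by omega
    have h2 : (2 * n) / 2 = n := by omega
    have ht1 : (t : ℂ) = 1 := by linear_combination -ht
    simpa [evenRows, h1, h2, ht1] using h
  · intro n
    induction n using Nat.strong_induction_on with
    | _ n ih =>
      have h := hv n
      rcases Nat.mod_two_eq_zero_or_one n with hn | hn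
      · by_cases h0 : n = 0
        · subst h0
          have h4 : (1 - (t : ℂ)) * (T.1 0 ⬝ᵥ v) + t * (T.1 0 ⬝ᵥ v) = 0 := by
            simpa [evenRows] using h
          linear_combination h4
        · have h3 := ih (n / 2) (by omega)
          simpa [evenRows, hn, h3, ht] using h
      · simpa [evenRows, hn, ht] using h

lemma joined_odd_even (T T' : EU ι) : Joined (oddRows T) (evenRows T') := by
  apply line_joined
  intro t _ _ v hv
  by_cases ht : (1 - (t : ℂ)) = 0
  · apply T'.2
    intro n
    have h := hv (2 * n)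
    have h1 : (2 * n) % 2 = 0 := by omega
    have h2 : (2 * n) / 2 = n := by omega
    have ht1 : (t : ℂ) = 1 := by linear_combination -ht
    simpa [oddRows, evenRows, h1, h2, ht1] using h
  · apply T.2
    intro n
    have h := hv (2 * n + 1)
    have h1 : (2 * n + 1) % 2 = 1 := by omega
    have h2 : (2 * n + 1) / 2 = n := by omega
    simpa [oddRows, evenRows, h1, h2, ht] using h

/-- `EU` is path connected. -/
lemma EU_joined (T T' : EU ι) : Joined T T' :=
  ((joined_odd T).trans (joined_odd_even T T')).trans (joined_even T').symm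

end

/-- Cocycles of degree zero take equal values at points joined by a path. -/
lemma cocycle_path {X : Type} [TopologicalSpace X] {c : Simplex X 0 → ℚ} (hc : IsCocycle c)
    {x y : X} (hxy : Joined x y) : c (ContinuousMap.const _ x) = c (ContinuousMap.const _ y) := by
  obtain ⟨γ⟩ := hxy
  let τ : C(stdSimplex ℝ (Fin 2), X) :=
    ⟨fun t => γ.extend (t 1), γ.continuous_extend.comp
      ((continuous_apply 1).comp continuous_subtype_val)⟩
  have hτ := hc (show Simplex X (0 + 1) from τ)
  have hτ' : ∑ i : Fin (0 + 2), (-1 : ℚ) ^ (i : ℕ) * c (face i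
    (show Simplex X (0 + 1) from τ)) = 0 := hτ
  rw [Fin.sum_univ_two] at hτ'
  have f0 : face (0 : Fin 2) (show Simplex X (0 + 1) from τ) = ContinuousMap.const _ y := by
    apply ContinuousMap.ext
    intro s
    show γ.extend ((stdSimplex.map (Fin.succAbove (0 : Fin 2)) s) 1) = y
    have : (stdSimplex.map (Fin.succAbove (0 : Fin 2)) s) 1 = (1 : ℝ) := by
      rw [map_succAbove]
      simp
    rw [this, γ.extend_one]
  have f1 : face (1 : Fin 2) (show Simplex X (0 + 1) from τ) = ContinuousMap.const _ x := by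
    apply ContinuousMap.ext
    intro s
    show γ.extend ((stdSimplex.map (Fin.succAbove (1 : Fin 2)) s) 1) = x
    have : (stdSimplex.map (Fin.succAbove (1 : Fin 2)) s) 1 = (0 : ℝ) := by
      rw [map_succAbove]
      simp
    rw [this, γ.extend_zero]
  rw [f0, f1] at hτ'
  simp only [Fin.val_zero, pow_zero, one_mul, Fin.val_one, pow_one] at hτ'
  linarith

lemma actE_cancel {ι : Type} [Fintype ι] [DecidableEq ι] (g : unitaryGroup ι ℂ) (T : EU ι) :
    T = actE g (actE g⁻¹ T) := by
  apply Subtype.ext
  funext n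
  show T.1 n = (T.1 n ᵥ* ((g⁻¹)⁻¹).1) ᵥ* (g⁻¹).1
  rw [vecMul_vecMul]
  have h : ((g⁻¹)⁻¹).1 * (g⁻¹).1 = 1 := by
    rw [← Matrix.UnitaryGroup.mul_val, inv_mul_cancel]
    rfl
  rw [h, vecMul_one]

/-- If the orbits in `S` are the fibres of `s`, every cocycle of degree zero on the Borel
construction is a function of `s`. -/
lemma cocycle_of_orbits {ι : Type} [Fintype ι] [DecidableEq ι]
    (G : Subgroup (Matrix.unitaryGroup ι ℂ)) (S : Set (TA ι)) {D : Type} (s : S → D)
    (hs : ∀ p q : S, s q = s p → ∃ g ∈ G, (q : TA ι) = actA g p)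
    {c : Simplex (Borel G S) 0 → ℚ} (hc : IsCocycle c) (e e' : EU ι) (p q : S) (h : s q = s p) :
    c (ContinuousMap.const _ (Quot.mk _ (e, q))) =
      c (ContinuousMap.const _ (Quot.mk _ (e', p))) := by
  obtain ⟨g, hg, hq⟩ := hs p q h
  have h1 : (Quot.mk _ (e, q) : Borel G S) = Quot.mk _ (actE g⁻¹ e, p) := by
    symm
    apply Quot.sound
    exact ⟨g, hg, actE_cancel g e, hq⟩
  rw [h1]
  apply cocycle_path hc
  obtain ⟨γ⟩ := EU_joined (actE g⁻¹ e) e'
  exact ⟨γ.map (f := fun T : EU ι => (Quot.mk _ (T, p) : Borel G S))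
    (continuous_quot_mk.comp (continuous_id.prodMk continuous_const))⟩

end

end Pool.Agent.H19.Kir
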