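import Pool.Agent.H19.Kir.Zero

set_option autoImplicit false

open Matrix

/-!
The two sheets of the level set of the library example are single orbits. The first lemma repeats
the computation of `level_dichotomy` in the library module.
-/

namespace Pool.Agent.H19.Kir

open Pool.Agent.Results.MP_8779dd_gt.KirwanDegreeZero

noncomputable section

lemma level_rel {p : TA (Fin 2 ⊕ Fin 2)} (hp : p ∈ level G0 xi) :
    (∀ x1 x2 y1 y2 p1 p2 r1 r2 : ℂ, x1 = p.1 (Sum.inl 0) → x2 = p.1 (Sum.inl 1) →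
      y1 = p.1 (Sum.inr 0) → y2 = p.1 (Sum.inr 1) → p1 = p.2 (Sum.inl 0) → p2 = p.2 (Sum.inl 1) →
      r1 = p.2 (Sum.inr 0) → r2 = p.2 (Sum.inr 1) →
      x1 * p2 + y1 * r2 = 0 ∧ x2 * p1 + y2 * r1 = 0 ∧ x1 * p1 + y1 * r1 = x2 * p2 + y2 * r2 ∧
      x1 * star x2 + y1 * star y2 - p2 * star p1 - r2 * star r1 = 0 ∧
      x1 * star x1 + y1 * star y1 - p1 * star p1 - r1 * star r1
        = x2 * star x2 + y2 * star y2 - p2 * star p2 - r2 * star r2 ∧
      x1 * star x1 + x2 * star x2 - p1 * star p1 - p2 * star p2 = 1) := by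
  have hT := hp _ mem_lieAlg_theta
  have hD := hp _ mem_lieAlg_D
  have hR := hp _ mem_lieAlg_R
  have hS := hp _ mem_lieAlg_S
  have hT1 := congrArg Prod.fst hT
  have hT2 := congrArg Prod.snd hT
  have hD1 := congrArg Prod.fst hD
  have hD2 := congrArg Prod.snd hD
  have hR1 := congrArg Prod.fst hR
  have hR2 := congrArg Prod.snd hR
  have hS1 := congrArg Prod.fst hS
  have hS2 := congrArg Prod.snd hS
  simp only [xi, muR, muC, dotProduct, Matrix.mulVec,
    Fintype.sum_sum_type, Fin.sum_univ_two, Matrix.fromBlocks_apply₁₁, Matrix.fromBlocks_apply₁₂,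
    Matrix.fromBlocks_apply₂₁, Matrix.fromBlocks_apply₂₂, Pi.star_apply, Matrix.trace,
    Matrix.diag_apply, Matrix.of_apply, Matrix.cons_val', Matrix.cons_val_zero,
    Matrix.cons_val_one, Matrix.zero_apply, Matrix.smul_apply, Matrix.one_apply, smul_eq_mul,
    Matrix.cons_val_fin_one, zero_mul, add_zero, zero_add, mul_zero, if_true, reduceIte, mul_one,
    Fin.isValue, zero_ne_one, one_ne_zero, neg_mul, mul_neg] at hT1 hT2 hD1 hD2 hR1 hR2 hS1 hS2
  intro x1 x2 y1 y2 p1 p2 r1 r2 hx1 hx2 hy1 hy2 hp1 hp2 hr1 hr2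
  rw [← hx1, ← hx2, ← hp1, ← hp2] at hT1 hT2
  rw [← hx1, ← hx2, ← hy1, ← hy2, ← hp1, ← hp2, ← hr1, ← hr2] at hD1 hD2 hR1 hR2 hS1 hS2
  have nn : ∀ z : ℂ, z * star z = ((‖z‖ ^ 2 : ℝ) : ℂ) := fun z => by
    rw [Complex.star_def, Complex.mul_conj, Complex.normSq_eq_norm_sq]
  have hI := Complex.I_mul_I
  have E4 : x1 * p1 + x2 * p2 = 0 := by
    linear_combination (-Complex.I) * hT2 + (x1 * p1 + x2 * p2) * hI
  have E3 : x1 * p1 + y1 * r1 = x2 * p2 + y2 * r2 := by
    linear_combination (-Complex.I) * hD2 + (x1 * p1 + y1 * r1 - x2 * p2 - y2 * r2) * hI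
  have hS2' : p1 * x2 + p2 * x1 + (r1 * y2 + r2 * y1) = 0 := by
    linear_combination (-Complex.I) * hS2 + (p1 * x2 + p2 * x1 + (r1 * y2 + r2 * y1)) * hI
  have E1 : x1 * p2 + y1 * r2 = 0 := by
    linear_combination (hS2' - hR2) / 2
  have E2 : x2 * p1 + y2 * r1 = 0 := by
    linear_combination (hS2' + hR2) / 2
  have E7 : x1 * star x1 + x2 * star x2 - p1 * star p1 - p2 * star p2 = 1 := by
    have h1 : Complex.I / 2 * (star x1 * (Complex.I * x1) + star x2 * (Complex.I * x2) -
        (p1 * (Complex.I * star p1) + p2 * (Complex.I * star p2)))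
        = ((-(‖x1‖ ^ 2 + ‖x2‖ ^ 2 - ‖p1‖ ^ 2 - ‖p2‖ ^ 2) / 2 : ℝ) : ℂ) := by
      push_cast
      have e1 := nn x1
      have e2 := nn x2
      have e3 := nn p1
      have e4 := nn p2
      push_cast at e1 e2 e3 e4
      rw [← e1, ← e2, ← e3, ← e4]
      linear_combination (x1 * star x1 + x2 * star x2 - p1 * star p1 - p2 * star p2) / 2 * hI
    rw [h1, Complex.ofReal_re] at hT1
    simp only [nn]
    norm_cast
    simp at hT1
    linarith
  have E6 : x1 * star x1 + y1 * star y1 - p1 * star p1 - r1 * star r1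
      = x2 * star x2 + y2 * star y2 - p2 * star p2 - r2 * star r2 := by
    have h1 : (Complex.I / 2 *
        (star x1 * (Complex.I * x1) + -(star x2 * (Complex.I * x2)) +
            (star y1 * (Complex.I * y1) + -(star y2 * (Complex.I * y2))) -
          (p1 * (Complex.I * star p1) + -(p2 * (Complex.I * star p2)) +
            (r1 * (Complex.I * star r1) + -(r2 * (Complex.I * star r2))))))
        = ((-(‖x1‖ ^ 2 - ‖x2‖ ^ 2 + ‖y1‖ ^ 2 - ‖y2‖ ^ 2 - ‖p1‖ ^ 2 + ‖p2‖ ^ 2 - ‖r1‖ ^ 2
          + ‖r2‖ ^ 2) / 2 : ℝ) : ℂ) := by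
      push_cast
      have e1 := nn x1
      have e2 := nn x2
      have e3 := nn p1
      have e4 := nn p2
      have e5 := nn y1
      have e6 := nn y2
      have e7 := nn r1
      have e8 := nn r2
      push_cast at e1 e2 e3 e4 e5 e6 e7 e8
      rw [← e1, ← e2, ← e3, ← e4, ← e5, ← e6, ← e7, ← e8]
      linear_combination (x1 * star x1 - x2 * star x2 + y1 * star y1 - y2 * star y2
        - p1 * star p1 + p2 * star p2 - r1 * star r1 + r2 * star r2) / 2 * hI
    rw [h1, Complex.ofReal_re] at hD1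
    simp only [nn]
    norm_cast
    simp at hD1
    linarith
  have E5 : x1 * star x2 + y1 * star y2 - p2 * star p1 - r2 * star r1 = 0 := by
    set W : ℂ := x1 * star x2 + y1 * star y2 - p2 * star p1 - r2 * star r1 with hW
    have hWs : star W = star x1 * x2 + star y1 * y2 - star p2 * p1 - star r2 * r1 := by
      rw [hW]
      simp only [star_add, star_sub, star_mul', star_star]
    have h1 : Complex.I / 2 *
        (star x1 * (1 * x2) + -(star x2 * (1 * x1)) + (star y1 * (1 * y2) + -(star y2 * (1 * y1))) -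
          (p1 * (1 * star p2) + -(p2 * (1 * star p1)) + (r1 * (1 * star r2) + -(r2 * (1 * star r1)))))
        = Complex.I / 2 * (star W - W) := by
      rw [hWs, hW]
      ring
    have h2 : Complex.I / 2 *
        (star x1 * (Complex.I * x2) + star x2 * (Complex.I * x1) +
            (star y1 * (Complex.I * y2) + star y2 * (Complex.I * y1)) -
          (p1 * (Complex.I * star p2) + p2 * (Complex.I * star p1) +
            (r1 * (Complex.I * star r2) + r2 * (Complex.I * star r1))))
        = Complex.I / 2 * (Complex.I * (star W + W)) := by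
      rw [hWs, hW]
      ring
    rw [h1, aux_im] at hR1
    rw [h2, aux_re] at hS1
    apply Complex.ext
    · simp at hS1
      simpa using hS1
    · simp at hR1
      simpa using hR1
  exact ⟨E1, E2, E3, E5, E6, E7⟩

lemma act_mul {ι : Type} [Fintype ι] [DecidableEq ι] (g h : unitaryGroup ι ℂ) (p : TA ι) :
    actA (g * h) p = actA g (actA h p) := by
  apply Prod.ext
  · show (g * h).1 *ᵥ p.1 = g.1 *ᵥ (h.1 *ᵥ p.1)
    rw [mulVec_mulVec]; rfl
  · show p.2 ᵥ* ((g * h)⁻¹).1 = (p.2 ᵥ* (h⁻¹).1) ᵥ* (g⁻¹).1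
    rw [vecMul_vecMul, _root_.mul_inv_rev]; rfl

lemma act_one {ι : Type} [Fintype ι] [DecidableEq ι] (p : TA ι) : actA 1 p = p := by
  apply Prod.ext
  · show (1 : Matrix ι ι ℂ) *ᵥ p.1 = p.1
    rw [one_mulVec]
  · show p.2 ᵥ* ((1 : unitaryGroup ι ℂ)⁻¹).1 = p.2
    rw [inv_one]
    exact vecMul_one _

lemma exists_circle (t : ℂ) (ht : t * star t = 1) : ∃ c : Circle, (c : ℂ) = t := by
  have h : ‖t‖ = 1 := by
    have h1 : t * star t = ((‖t‖ ^ 2 : ℝ) : ℂ) := by
      rw [Complex.star_def, Complex.mul_conj, Complex.normSq_eq_norm_sq]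
    rw [h1] at ht
    have h2 : ‖t‖ ^ 2 = 1 := by exact_mod_cast ht
    nlinarith [norm_nonneg t]
  refine ⟨⟨t, ?_⟩, rfl⟩
  simpa [Submonoid.unitSphere] using h

lemma emb_val (a : Matrix.specialUnitaryGroup (Fin 2) ℂ) (c : Circle) :
    (emb (a, c)).1 = Matrix.fromBlocks ((c : ℂ) • a.1) 0 0 a.1 := rfl

lemma emb_inv_val (a : Matrix.specialUnitaryGroup (Fin 2) ℂ) (c : Circle) :
    ((emb (a, c))⁻¹).1 = (Matrix.fromBlocks ((c : ℂ) • a.1) 0 0 a.1)ᴴ := rfl

lemma orbitA {p : TA J} (hp : p ∈ level G0 xi) (hs : 0 < sheet p) :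
    ∃ g ∈ G0, p = actA g ptA := by
  obtain ⟨⟨q1, q2⟩, h | h⟩ := level_dichotomy hp
  · exfalso
    rw [sheet, h.2.2, h.1, h.2.1] at hs
    simp at hs
    linarith
  obtain ⟨s1, s2, hy⟩ := h
  obtain ⟨E1, E2, E3, E5, E6, E7⟩ := level_rel hp _ _ _ _ _ _ _ _ rfl rfl rfl rfl rfl rfl rfl rfl
  obtain ⟨a, b⟩ := p
  simp only at q1 q2 s1 s2 hy E1 E2 E3 E5 E6 E7
  set x1 := a (Sum.inl 0) with hx1
  set x2 := a (Sum.inl 1) with hx2
  set y1 := a (Sum.inr 0) with hy1
  set y2 := a (Sum.inr 1) with hy2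
  rw [q1, q2, s1, s2] at E5 E6
  rw [q1, q2] at E7
  simp only [star_zero, mul_zero, sub_zero] at E5 E6 E7
  have E5' := congrArg star E5
  simp only [star_add, star_mul', star_star, star_zero] at E5'
  have hc : x1 * star x1 + y1 * star y1 = 1 := by
    linear_combination (E6 + E7 + hy) / 2
  have hd : x2 * star x2 + y2 * star y2 = 1 := by
    linear_combination (-E6 + E7 + hy) / 2
  have horth : star x1 * y1 + star x2 * y2 = 0 := by
    have hU : (!![x1, y1; x2, y2] : Matrix (Fin 2) (Fin 2) ℂ) * !![star x1, star x2; star y1, star y2] = 1 := by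
      ext i j
      fin_cases i <;> fin_cases j <;> simp [Matrix.mul_apply, Fin.sum_univ_two]
      · exact hc
      · exact E5
      · simp only [Complex.star_def] at E5'
        linear_combination E5'
      · exact hd
    have hU' := _root_.mul_eq_one_comm.1 hU
    have := congrFun (congrFun hU' 0) 1
    simpa [Matrix.mul_apply, Fin.sum_univ_two] using this
  have horth' := congrArg star horth
  simp only [star_add, star_mul', star_star, star_zero] at horth'
  obtain ⟨c, hcc⟩ := exists_circle (x1 * y2 - x2 * y1) (by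
    simp only [star_sub, star_mul']
    linear_combination (x1 * star x1 + x2 * star x2) * hy + E7 - (star x1 * y1 + star x2 * y2) * horth')
  refine ⟨emb (su (star y2) y1 (by rw [star_star]; linear_combination hy), c), ⟨_, rfl⟩, ?_⟩
  apply Prod.ext
  · funext i
    show a i = ((emb (su (star y2) y1 _, c)).1 *ᵥ ptA.1) i
    rw [emb_val, hcc]
    rcases i with i | i <;> fin_cases i <;>
      simp [ptA, su, mulVec, dotProduct, Fintype.sum_sum_type, Fin.sum_univ_two, ← hx1, ← hx2,
        ← hy1, ← hy2]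
    · simp only [Complex.star_def] at hy horth'
      linear_combination -x1 * hy + y1 * horth'
    · simp only [Complex.star_def] at hy horth'
      linear_combination -x2 * hy + y2 * horth'
  · funext i
    show b i = (ptA.2 ᵥ* ((emb (su (star y2) y1 _, c))⁻¹).1) i
    rw [emb_inv_val]
    rcases i with i | i <;> fin_cases i <;>
      simp [ptA, vecMul, dotProduct, Fintype.sum_sum_type, Fin.sum_univ_two, q1, q2, s1, s2]

lemma orbitB {p : TA J} (hp : p ∈ level G0 xi) (hs : ¬ 0 < sheet p) :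
    ∃ g ∈ G0, p = actA g ptB := by
  obtain ⟨⟨q1, q2⟩, h | h⟩ := level_dichotomy hp
  swap
  · exfalso
    apply hs
    rw [sheet, h.2.2, h.1, h.2.1]
    simp
  obtain ⟨s1, s2, hr⟩ := h
  obtain ⟨E1, E2, E3, E5, E6, E7⟩ := level_rel hp _ _ _ _ _ _ _ _ rfl rfl rfl rfl rfl rfl rfl rfl
  obtain ⟨a, b⟩ := p
  simp only at q1 q2 s1 s2 hr E1 E2 E3 E5 E6 E7
  set x1 := a (Sum.inl 0) with hx1
  set x2 := a (Sum.inl 1) with hx2
  set r1 := b (Sum.inr 0) with hr1
  set r2 := b (Sum.inr 1) with hr2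
  rw [q1, q2, s1, s2] at E5 E6
  rw [q1, q2] at E7
  simp only [star_zero, mul_zero, zero_mul, sub_zero, add_zero] at E5 E6 E7
  have E5' := congrArg star E5
  simp only [star_sub, star_mul', star_star, star_zero] at E5'
  have hA : r1 * star r1 = x1 * star x1 := by
    linear_combination (-E6 - E7 + hr) / 2
  have hC : r2 * star r2 = x2 * star x2 := by
    linear_combination (E6 - E7 + hr) / 2
  have hB : r2 * star r1 = x1 * star x2 := by linear_combination -E5
  have hB' : r1 * star r2 = x2 * star x1 := by linear_combination -E5'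
  obtain ⟨c, hcc⟩ := exists_circle (x1 * r1 + x2 * r2) (by
    simp only [star_add, star_mul']
    linear_combination (x1 * star x1) * hA + (x1 * star x2) * hB' + (x2 * star x1) * hB +
      (x2 * star x2) * hC + (x1 * star x1 + x2 * star x2 + 1) * E7)
  refine ⟨emb (su (star r1) (-r2) (by rw [star_star, star_neg]; linear_combination hr), c),
    ⟨_, rfl⟩, ?_⟩
  apply Prod.ext
  · funext i
    show a i = ((emb (su (star r1) (-r2) _, c)).1 *ᵥ ptB.1) i
    rw [emb_val, hcc]
    rcases i with i | i <;> fin_cases i <;>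
      simp [ptB, su, mulVec, dotProduct, Fintype.sum_sum_type, Fin.sum_univ_two, ← hx1, ← hx2,
        s1, s2]
    · simp only [Complex.star_def] at hA hB E7
      linear_combination -x1 * E7 - x1 * hA - x2 * hB
    · simp only [Complex.star_def] at hC hB' E7
      linear_combination -x2 * E7 - x1 * hB' - x2 * hC
  · funext i
    show b i = (ptB.2 ᵥ* ((emb (su (star r1) (-r2) _, c))⁻¹).1) i
    rw [emb_inv_val]
    rcases i with i | i <;> fin_cases i <;>
      simp [ptB, su, vecMul, dotProduct, Fintype.sum_sum_type, Fin.sum_univ_two, q1, q2, ← hr1,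
        ← hr2, fromBlocks_conjTranspose]

/-- Two points of the level set on the same sheet are in the same orbit. -/
lemma same_sheet {p q : TA J} (hp : p ∈ level G0 xi) (hq : q ∈ level G0 xi)
    (h : 0 < sheet p ↔ 0 < sheet q) : ∃ g ∈ G0, q = actA g p := by
  have key : ∀ r : TA J, ∀ a ∈ G0, ∀ b ∈ G0, p = actA a r → q = actA b r →
      ∃ g ∈ G0, q = actA g p := by
    intro r a ha b hb h1 h2
    refine ⟨b * a⁻¹, mul_mem hb (inv_mem ha), ?_⟩
    rw [h1, ← act_mul, mul_assoc, inv_mul_cancel, mul_one, h2]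
  by_cases hs : 0 < sheet p
  · obtain ⟨a, ha, h1⟩ := orbitA hp hs
    obtain ⟨b, hb, h2⟩ := orbitA hq (h.1 hs)
    exact key _ a ha b hb h1 h2
  · obtain ⟨a, ha, h1⟩ := orbitB hp hs
    obtain ⟨b, hb, h2⟩ := orbitB hq fun h' => hs (h.2 h')
    exact key _ a ha b hb h1 h2

lemma sgn_eq_iff {N : ℕ} (p q : level (GN N) (xiN N)) : sgn q = sgn p ↔
    ∃ g ∈ GN N, q.1 = actA g p.1 := by
  constructor
  · intro h
    have h1 : ∀ k, ∃ g ∈ G0, comp q.1 k = actA g (comp p.1 k) := by
      intro k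
      apply same_sheet (mem_level.1 p.2 k) (mem_level.1 q.2 k)
      have := congrFun h k
      unfold sgn at this
      exact (decide_eq_decide.1 this).symm
    choose g hg hgq using h1
    refine ⟨bd g, mem_GN.2 ⟨g, hg, rfl⟩, ?_⟩
    have h2 : ∀ k, comp q.1 k = comp (actA (bd g) p.1) k := by
      intro k
      rw [comp_act, hgq]
    apply Prod.ext
    · funext ⟨j, k⟩
      exact congrFun (congrArg Prod.fst (h2 k)) j
    · funext ⟨j, k⟩
      exact congrFun (congrArg Prod.snd (h2 k)) j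
  · rintro ⟨g, hg, h⟩
    exact sgn_inv p q g hg h

end

end Pool.Agent.H19.Kir
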