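import Pool.Graph.R_seed8.Results.MP_8779dd_gt.KirwanDegreeZero

set_option autoImplicit false

open Matrix

/-!
Products of copies of the example `SU(2) × U(1)` of the library.
-/

namespace Pool.Agent.H19.Kir

open Pool.Agent.Results.MP_8779dd_gt.KirwanDegreeZero

noncomputable section

abbrev J : Type := Fin 2 ⊕ Fin 2

abbrev I (N : ℕ) : Type := J × Fin N

variable {N : ℕ}

/-- block diagonal unitary matrices -/
def bd : (Fin N → unitaryGroup J ℂ) →* unitaryGroup (I N) ℂ where
  toFun g := ⟨blockDiagonal fun k => (g k).1, by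
    rw [mem_unitaryGroup_iff, star_eq_conjTranspose, blockDiagonal_conjTranspose,
      ← blockDiagonal_mul]
    have h : (fun k => (g k).1 * (g k).1ᴴ) = fun _ => (1 : Matrix J J ℂ) := by
      funext k
      exact mem_unitaryGroup_iff.1 (g k).2
    rw [h]
    exact blockDiagonal_one⟩
  map_one' := by
    apply Subtype.ext
    exact blockDiagonal_one
  map_mul' g h := by
    apply Subtype.ext
    exact blockDiagonal_mul (fun k => (g k).1) (fun k => (h k).1)

lemma bd_val (g : Fin N → unitaryGroup J ℂ) : (bd g).1 = blockDiagonal fun k => (g k).1 := rfl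

lemma bd_inv_val (g : Fin N → unitaryGroup J ℂ) :
    ((bd g)⁻¹).1 = blockDiagonal fun k => ((g k)⁻¹).1 := by
  rw [← map_inv, bd_val]
  rfl

lemma bd_injective : Function.Injective (bd (N := N)) := by
  intro g h hgh
  funext k
  apply Subtype.ext
  ext i j
  have h1 := congrFun (congrFun (congrArg Subtype.val hgh) (i, k)) (j, k)
  simpa [bd_val, blockDiagonal_apply] using h1

/-- the product of `N` copies of the group of the library -/
def GN (N : ℕ) : Subgroup (unitaryGroup (I N) ℂ) :=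
  (Subgroup.pi Set.univ fun _ : Fin N => G0).map bd

lemma mem_GN {u : unitaryGroup (I N) ℂ} : u ∈ GN N ↔ ∃ g : Fin N → unitaryGroup J ℂ,
    (∀ k, g k ∈ G0) ∧ bd g = u := by
  unfold GN
  rw [Subgroup.mem_map]
  constructor
  · rintro ⟨g, hg, rfl⟩
    exact ⟨g, fun k => hg k (Set.mem_univ k), rfl⟩
  · rintro ⟨g, hg, rfl⟩
    exact ⟨g, fun k _ => hg k, rfl⟩

lemma bd_mulVec (M : Fin N → Matrix J J ℂ) (v : I N → ℂ) (j : J) (k : Fin N) :
    (blockDiagonal M *ᵥ v) (j, k) = (M k *ᵥ fun i => v (i, k)) j := by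
  simp only [mulVec, dotProduct, blockDiagonal_apply, Fintype.sum_prod_type, ite_mul, zero_mul,
    Finset.sum_ite_eq, Finset.mem_univ, if_true]

lemma bd_vecMul (M : Fin N → Matrix J J ℂ) (v : I N → ℂ) (j : J) (k : Fin N) :
    (v ᵥ* blockDiagonal M) (j, k) = ((fun i => v (i, k)) ᵥ* M k) j := by
  simp only [vecMul, dotProduct, blockDiagonal_apply, Fintype.sum_prod_type, mul_ite, mul_zero,
    Finset.sum_ite_eq', Finset.mem_univ, if_true]

/-- the components of a point -/
def comp (p : TA (I N)) (k : Fin N) : TA J := (fun j => p.1 (j, k), fun j => p.2 (j, k))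

/-- the point with given components -/
def ofComp (q : Fin N → TA J) : TA (I N) := (fun x => (q x.2).1 x.1, fun x => (q x.2).2 x.1)

lemma comp_ofComp (q : Fin N → TA J) (k : Fin N) : comp (ofComp q) k = q k := rfl

lemma comp_continuous (k : Fin N) : Continuous fun p : TA (I N) => comp p k := by
  have h : Continuous fun p : (I N → ℂ) × (I N → ℂ) =>
      ((fun j => p.1 (j, k), fun j => p.2 (j, k)) : (J → ℂ) × (J → ℂ)) := by fun_prop
  exact h

lemma comp_act (g : Fin N → unitaryGroup J ℂ) (p : TA (I N)) (k : Fin N) :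
    comp (actA (bd g) p) k = actA (g k) (comp p k) := by
  apply Prod.ext
  · funext j
    show ((bd g).1 *ᵥ p.1) (j, k) = ((g k).1 *ᵥ fun j => p.1 (j, k)) j
    rw [bd_val, bd_mulVec]
  · funext j
    show (p.2 ᵥ* ((bd g)⁻¹).1) (j, k) = ((fun j => p.2 (j, k)) ᵥ* ((g k)⁻¹).1) j
    rw [bd_inv_val, bd_vecMul]

lemma dot_bd (a b : I N → ℂ) (X : Fin N → Matrix J J ℂ) : a ⬝ᵥ (blockDiagonal X *ᵥ b) =
    ∑ k, (fun j => a (j, k)) ⬝ᵥ (X k *ᵥ fun j => b (j, k)) := by
  unfold dotProduct
  rw [Fintype.sum_prod_type_right]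
  refine Finset.sum_congr rfl fun k _ => Finset.sum_congr rfl fun j _ => ?_
  rw [bd_mulVec]

lemma muC_bd (X : Fin N → Matrix J J ℂ) (p : TA (I N)) :
    muC (blockDiagonal X) p = ∑ k, muC (X k) (comp p k) := dot_bd _ _ _

lemma muR_bd (X : Fin N → Matrix J J ℂ) (p : TA (I N)) :
    muR (blockDiagonal X) p = ∑ k, muR (X k) (comp p k) := by
  unfold muR
  rw [dot_bd, dot_bd, ← Complex.re_sum, ← Finset.sum_sub_distrib, Finset.mul_sum]
  rfl

/-- the central value -/
def xiN (N : ℕ) (X : Matrix (I N) (I N) ℂ) : ℝ × ℂ := (-(X.trace.im) / 4, 0)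

lemma xiN_bd (X : Fin N → Matrix J J ℂ) : xiN N (blockDiagonal X) = ∑ k, xi (X k) := by
  unfold xiN xi
  rw [trace_blockDiagonal]
  apply Prod.ext
  · rw [Prod.fst_sum]
    simp only [Complex.im_sum]
    rw [← Finset.sum_div, Finset.sum_neg_distrib]
  · rw [Prod.snd_sum]
    simp

lemma xiN_central : IsCentral (GN N) (xiN N) := by
  refine ⟨fun X Y => ?_, fun r X => ?_, ?_⟩
  · apply Prod.ext <;> simp [xiN]
    ring
  · apply Prod.ext <;> simp [xiN]
    ring
  intro g _ X _
  have h : (g.1 * X * (g⁻¹).1).trace = X.trace := by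
    rw [Matrix.trace_mul_comm, ← Matrix.mul_assoc, ← Matrix.UnitaryGroup.mul_val, inv_mul_cancel]
    simp
  show ((-((g.1 * X * (g⁻¹).1).trace.im) / 4, 0) : ℝ × ℂ) = (-(X.trace.im) / 4, 0)
  rw [h]

lemma lieAlg_bd {X : Matrix (I N) (I N) ℂ} (hX : X ∈ lieAlg (GN N)) :
    ∃ Y : Fin N → Matrix J J ℂ, X = blockDiagonal Y ∧ ∀ k, Y k ∈ lieAlg G0 := by
  obtain ⟨γ, hγ, h0, hd⟩ := hX
  choose g hg hgγ using fun s => mem_GN.1 (hγ s)
  have hval : ∀ s x y, (γ s).1 x y = blockDiagonal (fun k => (g s k).1) x y := by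
    intro s x y
    rw [← hgγ s]; rfl
  refine ⟨fun k => Matrix.of fun i j => X (i, k) (j, k), ?_, ?_⟩
  · ext ⟨i, k⟩ ⟨j, l⟩
    rw [blockDiagonal_apply]
    by_cases hkl : k = l
    · subst hkl
      simp
    · rw [if_neg hkl]
      have h1 := hd (i, k) (j, l)
      have h2 : (fun s => (γ s).1 (i, k) (j, l)) = fun _ => (0 : ℂ) := by
        funext s
        rw [hval, blockDiagonal_apply, if_neg hkl]
      rw [h2] at h1
      exact h1.unique (hasDerivAt_const _ _)
  · intro k
    refine ⟨fun s => g s k, fun s => hg s k, ?_, ?_⟩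
    · have : g 0 = 1 := by
        apply bd_injective
        rw [hgγ 0, h0, map_one]
      show g 0 k = 1
      rw [this]; rfl
    · intro i j
      have h1 := hd (i, k) (j, k)
      have h2 : (fun s => (γ s).1 (i, k) (j, k)) = fun s => (g s k).1 i j := by
        funext s
        rw [hval, blockDiagonal_apply, if_pos rfl]
      rw [h2] at h1
      exact h1

lemma single_lieAlg {Y : Matrix J J ℂ} (hY : Y ∈ lieAlg G0) (k : Fin N) :
    blockDiagonal (Pi.single k Y) ∈ lieAlg (GN N) := by
  obtain ⟨γ, hγ, h0, hd⟩ := hY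
  refine ⟨fun s => bd (Pi.mulSingle k (γ s)), fun s => mem_GN.2 ⟨_, fun l => ?_, rfl⟩, ?_, ?_⟩
  · by_cases h : l = k
    · subst h; rw [Pi.mulSingle_eq_same]; exact hγ s
    · rw [Pi.mulSingle_eq_of_ne h]; exact one_mem _
  · show bd (Pi.mulSingle k (γ 0)) = 1
    rw [h0, Pi.mulSingle_one, map_one]
  · rintro ⟨i, l⟩ ⟨j, m⟩
    simp only [bd_val, blockDiagonal_apply]
    by_cases hlm : l = m
    · simp only [hlm, if_true]
      by_cases h : m = k
      · subst h
        simp only [Pi.mulSingle_eq_same, Pi.single_eq_same]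
        exact hd i j
      · simp only [Pi.mulSingle_eq_of_ne h, Pi.single_eq_of_ne h]
        exact hasDerivAt_const _ _
    · simp only [hlm, if_false]
      exact hasDerivAt_const _ _

lemma mem_level {p : TA (I N)} : p ∈ level (GN N) (xiN N) ↔ ∀ k, comp p k ∈ level G0 xi := by
  constructor
  · intro hp k Y hY
    have h := hp _ (single_lieAlg hY k)
    rw [muR_bd, muC_bd, xiN_bd] at h
    have h1 : ∀ q : TA J, muR (0 : Matrix J J ℂ) q = 0 := by intro q; simp [muR]
    have h2 : ∀ q : TA J, muC (0 : Matrix J J ℂ) q = 0 := by intro q; simp [muC]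
    have h3 : xi (0 : Matrix J J ℂ) = 0 := by simp [xi]
    rw [Finset.sum_eq_single k, Finset.sum_eq_single k, Finset.sum_eq_single k] at h
    · simpa using h
    · intro l _ hl; rw [Pi.single_eq_of_ne hl, h3]
    · intro h'; exact absurd (Finset.mem_univ k) h'
    · intro l _ hl; rw [Pi.single_eq_of_ne hl, h2]
    · intro h'; exact absurd (Finset.mem_univ k) h'
    · intro l _ hl; rw [Pi.single_eq_of_ne hl, h1]
    · intro h'; exact absurd (Finset.mem_univ k) h'
  · intro hp X hX
    obtain ⟨Y, rfl, hY⟩ := lieAlg_bd hX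
    rw [muR_bd, muC_bd, xiN_bd]
    apply Prod.ext
    · show (∑ k, muR (Y k) (comp p k)) = (∑ k, xi (Y k)).1
      rw [Prod.fst_sum]
      exact Finset.sum_congr rfl fun k _ => congrArg Prod.fst (hp k _ (hY k))
    · show (∑ k, muC (Y k) (comp p k)) = (∑ k, xi (Y k)).2
      rw [Prod.snd_sum]
      exact Finset.sum_congr rfl fun k _ => congrArg Prod.snd (hp k _ (hY k))

lemma free {p : TA (I N)} (hp : p ∈ level (GN N) (xiN N)) {g : unitaryGroup (I N) ℂ}
    (hg : g ∈ GN N) (h : actA g p = p) : g = 1 := by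
  obtain ⟨g, hg', rfl⟩ := mem_GN.1 hg
  have : g = 1 := by
    funext k
    apply level_free (mem_level.1 hp k) (hg' k)
    rw [← comp_act, h]
  rw [this, map_one]

lemma bd_continuous : Continuous (bd (N := N)) := by
  apply Continuous.subtype_mk
  apply Continuous.matrix_blockDiagonal
  exact continuous_pi fun k => continuous_subtype_val.comp (continuous_apply k)

lemma GN_eq : (GN N : Set (unitaryGroup (I N) ℂ)) =
    bd '' (Set.univ.pi fun _ : Fin N => (G0 : Set (unitaryGroup J ℂ))) := by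
  ext u
  constructor
  · intro hu
    obtain ⟨g, hg, rfl⟩ := mem_GN.1 hu
    exact ⟨g, fun k _ => hg k, rfl⟩
  · rintro ⟨g, hg, rfl⟩
    exact mem_GN.2 ⟨g, fun k => hg k (Set.mem_univ k), rfl⟩

lemma GN_compact : IsCompact (GN N : Set (unitaryGroup (I N) ℂ)) := by
  rw [GN_eq]
  exact (isCompact_univ_pi fun _ => G0_compact).image bd_continuous

lemma GN_connected : IsConnected (GN N : Set (unitaryGroup (I N) ℂ)) := by
  rw [GN_eq]
  exact (isConnected_univ_pi.2 fun _ => G0_connected).image _ bd_continuous.continuousOn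

end

end Pool.Agent.H19.Kir
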