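import Pool.Agent.H19.Kir.Prod

set_option autoImplicit false

open Matrix

/-!
The image of the Kirwan map in degree zero.
-/

namespace Pool.Agent.H19.Kir

open Pool.Agent.Results.MP_8779dd_gt.KirwanDegreeZero

noncomputable section

lemma loc_cocycle {X : Type} [TopologicalSpace X] (h : X → ℚ) (hh : IsLocallyConstant h) :
    IsCocycle (X := X) (n := 0) fun σ => h ((show C(stdSimplex ℝ (Fin 1), X) from σ) default) := by
  intro τ
  let τ' : C(stdSimplex ℝ (Fin 2), X) := τ
  have hc : IsLocallyConstant (h ∘ τ') := hh.comp_continuous τ'.continuous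
  have key : ∀ a b : stdSimplex ℝ (Fin 2), h (τ' a) = h (τ' b) := fun a b =>
    hc.apply_eq_of_preconnectedSpace a b
  show ∑ i : Fin (0 + 2), (-1 : ℚ) ^ (i : ℕ) *
    h (τ' (stdSimplex.map i.succAbove default)) = 0
  rw [Fin.sum_univ_two]
  simp only [Fin.val_zero, pow_zero, one_mul, Fin.val_one, pow_one]
  rw [key (stdSimplex.map (Fin.succAbove (0 : Fin 2)) default)
    (stdSimplex.map (Fin.succAbove (1 : Fin 2)) default)]
  ring

/-- The class in `H^0` of a locally constant function. -/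
def classOf {X : Type} [TopologicalSpace X] (h : X → ℚ) (hh : IsLocallyConstant h) : Coh X 0 :=
  Quot.mk _ ⟨fun σ => h ((show C(stdSimplex ℝ (Fin 1), X) from σ) default), loc_cocycle h hh⟩

variable {ι : Type} [Fintype ι] [DecidableEq ι]

/-- A locally constant function whose class is in the image takes equal values at the points over
`x` and `y`. -/
lemma eq_of_mem_range (G : Subgroup (Matrix.unitaryGroup ι ℂ)) (S : Set (TA ι))
    (h : Borel G S → ℚ) (hh : IsLocallyConstant h)
    (hr : classOf h hh ∈ Set.range (cohMap (borelIncl G S) 0)) (x y : TA ι) (hxS : x ∈ S)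
    (hyS : y ∈ S) (e : EU ι) :
    h (Quot.mk _ (e, ⟨x, hxS⟩)) = h (Quot.mk _ (e, ⟨y, hyS⟩)) := by
  obtain ⟨w, hw⟩ := hr
  obtain ⟨b, rfl⟩ := Quot.exists_rep w
  let c : Simplex (Borel G S) 0 → ℚ :=
    fun σ => h ((show C(stdSimplex ℝ (Fin 1), Borel G S) from σ) default)
  have h3 : (Quot.mk _ ⟨fun σ => b.1 (ContinuousMap.comp (borelIncl G S) σ),
      pull_cocycle (borelIncl G S) b.2⟩ : Coh (Borel G S) 0) = Quot.mk _ ⟨c, loc_cocycle h hh⟩ := hw
  have h5 : ∀ σ : Simplex (Borel G S) 0, b.1 (ContinuousMap.comp (borelIncl G S) σ) = c σ := by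
    let ev : Coh (Borel G S) 0 → (Simplex (Borel G S) 0 → ℚ) :=
      Quot.lift (fun c => c.1) fun _ _ h => h
    intro σ
    exact congrFun (congrArg ev h3) σ
  let pt : (s : TA ι) → s ∈ S → Simplex (Borel G S) 0 := fun s hs =>
    ContinuousMap.const _ (Quot.mk _ (e, ⟨s, hs⟩))
  let γ : ℝ → TA ι := fun t =>
    (fun i => (1 - (t : ℂ)) * x.1 i + t * y.1 i, fun i => (1 - (t : ℂ)) * x.2 i + t * y.2 i)
  have hγ : Continuous γ := by
    have h : Continuous fun t : ℝ => ((fun i => (1 - (t : ℂ)) * x.1 i + t * y.1 i,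
      fun i => (1 - (t : ℂ)) * x.2 i + t * y.2 i) : (ι → ℂ) × (ι → ℂ)) := by
      fun_prop
    exact h
  have h0 : γ 0 = x := by
    apply Prod.ext <;> funext i
    · show (1 - ((0 : ℝ) : ℂ)) * x.1 i + ((0 : ℝ) : ℂ) * y.1 i = x.1 i
      simp
    · show (1 - ((0 : ℝ) : ℂ)) * x.2 i + ((0 : ℝ) : ℂ) * y.2 i = x.2 i
      simp
  have h1 : γ 1 = y := by
    apply Prod.ext <;> funext i
    · show (1 - ((1 : ℝ) : ℂ)) * x.1 i + ((1 : ℝ) : ℂ) * y.1 i = y.1 i
      simp
    · show (1 - ((1 : ℝ) : ℂ)) * x.2 i + ((1 : ℝ) : ℂ) * y.2 i = y.2 i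
      simp
  let τ : C(stdSimplex ℝ (Fin 2), Borel G (Set.univ : Set (TA ι))) :=
    ⟨fun t => Quot.mk _ (e, ⟨γ (t 1), trivial⟩), by
      refine continuous_quot_mk.comp (continuous_const.prodMk
        ((hγ.comp ?_).subtype_mk _))
      exact (continuous_apply 1).comp continuous_subtype_val⟩
  have hτ := b.2 (show Simplex (Borel G (Set.univ : Set (TA ι))) (0 + 1) from τ)
  have hτ' : ∑ i : Fin (0 + 2), (-1 : ℚ) ^ (i : ℕ) * b.1 (face i
    (show Simplex (Borel G (Set.univ : Set (TA ι))) (0 + 1) from τ)) = 0 := hτ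
  rw [Fin.sum_univ_two] at hτ'
  have f0 : face (0 : Fin 2) (show Simplex (Borel G (Set.univ : Set (TA ι))) (0 + 1) from τ)
      = ContinuousMap.comp (borelIncl G S) (pt y hyS) := by
    apply ContinuousMap.ext
    intro s
    show (Quot.mk _ (e, ⟨γ ((stdSimplex.map (Fin.succAbove (0 : Fin 2)) s) 1), trivial⟩) :
      Borel G (Set.univ : Set (TA ι))) = Quot.mk _ (e, ⟨y, trivial⟩)
    have : (stdSimplex.map (Fin.succAbove (0 : Fin 2)) s) 1 = (1 : ℝ) := by
      rw [map_succAbove]
      simp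
    rw [this]
    congr 3
  have f1 : face (1 : Fin 2) (show Simplex (Borel G (Set.univ : Set (TA ι))) (0 + 1) from τ)
      = ContinuousMap.comp (borelIncl G S) (pt x hxS) := by
    apply ContinuousMap.ext
    intro s
    show (Quot.mk _ (e, ⟨γ ((stdSimplex.map (Fin.succAbove (1 : Fin 2)) s) 1), trivial⟩) :
      Borel G (Set.univ : Set (TA ι))) = Quot.mk _ (e, ⟨x, trivial⟩)
    have : (stdSimplex.map (Fin.succAbove (1 : Fin 2)) s) 1 = (0 : ℝ) := by
      rw [map_succAbove]
      simp
    rw [this]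
    congr 3
  rw [f0, f1, h5, h5] at hτ'
  have cy : c (pt y hyS) = h (Quot.mk _ (e, ⟨y, hyS⟩)) := rfl
  have cx : c (pt x hxS) = h (Quot.mk _ (e, ⟨x, hxS⟩)) := rfl
  rw [cy, cx] at hτ'
  simp only [Fin.val_zero, pow_zero, one_mul, Fin.val_one, pow_one] at hτ'
  linarith

/-- The class of a constant is in the image. -/
lemma const_mem_range (G : Subgroup (Matrix.unitaryGroup ι ℂ)) (S : Set (TA ι)) (a : ℚ)
    (hh : IsLocallyConstant fun _ : Borel G S => a) :
    classOf _ hh ∈ Set.range (cohMap (borelIncl G S) 0) :=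
  ⟨classOf (fun _ => a) (IsLocallyConstant.const a), rfl⟩

/-- `EU ι` is not empty. -/
lemma EU_ne : Nonempty (EU ι) := by
  let k : ι → ℕ := fun i => (Fintype.equivFin ι i : ℕ)
  have hk : Function.Injective k := fun i j h =>
    (Fintype.equivFin ι).injective (Fin.ext h)
  refine ⟨⟨fun n i => if n = k i then 1 else 0, ?_⟩⟩
  intro v hv
  funext j
  have h := hv (k j)
  rw [dotProduct, Finset.sum_eq_single j] at h
  · simpa using h
  · intro i _ hij
    show (if k j = k i then (1 : ℂ) else 0) * v i = 0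
    rw [if_neg fun h' => hij (hk h').symm, zero_mul]
  · intro h'
    exact absurd (Finset.mem_univ j) h'

variable {N : ℕ}

/-- the signs of the sheets -/
def sgn (p : level (GN N) (xiN N)) : Fin N → Bool := fun k => decide (0 < sheet (comp p.1 k))

lemma sgn_continuous : Continuous (sgn (N := N)) := by
  refine continuous_pi fun k => ?_
  have hs : Continuous fun p : level (GN N) (xiN N) => sheet (comp p.1 k) :=
    sheet_continuous.comp ((comp_continuous k).comp continuous_subtype_val)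
  have hne : ∀ p : level (GN N) (xiN N), sheet (comp p.1 k) ≠ 0 := fun p =>
    sheet_ne_zero _ (mem_level.1 p.2 k)
  have h1 : IsOpen {p : level (GN N) (xiN N) | 0 < sheet (comp p.1 k)} :=
    isOpen_lt continuous_const hs
  have h2 : IsOpen {p : level (GN N) (xiN N) | sheet (comp p.1 k) < 0} :=
    isOpen_lt hs continuous_const
  rw [continuous_discrete_rng]
  intro b
  cases b
  · convert h2 using 1
    ext p
    simp only [Set.mem_preimage, Set.mem_singleton_iff, Set.mem_setOf_eq, sgn,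
      decide_eq_false_iff_not, not_lt]
    exact ⟨fun h => lt_of_le_of_ne h (hne p), fun h => h.le⟩
  · convert h1 using 1
    ext p
    simp [sgn]

lemma sgn_inv (p q : level (GN N) (xiN N)) (g : unitaryGroup (I N) ℂ) (hg : g ∈ GN N)
    (h : q.1 = actA g p.1) : sgn q = sgn p := by
  obtain ⟨g, hg', rfl⟩ := mem_GN.1 hg
  funext k
  unfold sgn
  rw [h, comp_act, sheet_smul (hg' k)]

lemma sgn_surjective : Function.Surjective (sgn (N := N)) := by
  intro b
  have hq : ∀ k, (if b k then ptA else ptB) ∈ level G0 xi := by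
    intro k
    split_ifs
    · exact ptA_mem
    · exact ptB_mem
  refine ⟨⟨ofComp fun k => if b k then ptA else ptB, mem_level.2 fun k => ?_⟩, ?_⟩
  · rw [comp_ofComp]; exact hq k
  · funext k
    unfold sgn
    rw [comp_ofComp]
    cases b k
    · simp [sheet, ptB]
    · simp [sheet, ptA]

end

end Pool.Agent.H19.Kir
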